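import Mathlib
import Pool.Agent.H49.FD7

set_option autoImplicit false

namespace Pool.Agent.Results.MP_e70ed2_nt.Local

open Filter Polynomial Pool.Agent.H49.FD

/-- Upper density. -/
noncomputable def ud (A : Set ℕ) : ℝ :=
  limsup (fun N : ℕ => ((A ∩ Set.Icc 1 N).ncard : ℝ) / N) atTop

/-- The supremum of upper densities of sets of positive integers with no nonzero difference in `X`. -/
noncomputable def mu (X : Set ℤ) : ℝ := sSup {t | ∃ A : Set ℕ, 0 ∉ A ∧
  (∀ a ∈ A, ∀ b ∈ A, (a : ℤ) - b ∈ X → (a : ℤ) - b = 0) ∧ t = ud A}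

/-- Residue classes containing a nonzero element of `X`. -/
def Xm (X : Set ℤ) (m : ℕ) : Set (ZMod m) := {r | ∃ x ∈ X, x ≠ 0 ∧ (x : ZMod m) = r}

/-- The largest size of a set of residues with no difference in `Xm X m`. -/
noncomputable def dX (X : Set ℤ) (m : ℕ) : ℕ :=
  sSup {k | ∃ B : Finset (ZMod m), (∀ a ∈ B, ∀ b ∈ B, a - b ∉ Xm X m) ∧ B.card = k}

lemma nc (A : Set ℕ) [DecidablePred (· ∈ A)] (N : ℕ) :
    (A ∩ Set.Icc 1 N).ncard = ((Finset.Icc 1 N).filter (· ∈ A)).card := by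
  rw [← Set.ncard_coe_finset, Finset.coe_filter, Set.inter_comm]
  simp only [Finset.mem_Icc]; rfl

lemma r01 (A : Set ℕ) (N : ℕ) : 0 ≤ ((A ∩ Set.Icc 1 N).ncard : ℝ) / N ∧
    ((A ∩ Set.Icc 1 N).ncard : ℝ) / N ≤ 1 := by
  refine ⟨by positivity, div_le_one_of_le₀ ?_ (by positivity)⟩
  classical
  rw [nc]; exact_mod_cast (Finset.card_filter_le _ _).trans (by simp)

lemma bd (X : Set ℤ) (m : ℕ) [NeZero m] : ∀ k ∈ {k | ∃ B : Finset (ZMod m),
    (∀ a ∈ B, ∀ b ∈ B, a - b ∉ Xm X m) ∧ B.card = k}, k ≤ m := by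
  rintro _ ⟨B, -, rfl⟩
  exact (Finset.card_le_univ B).trans (ZMod.card m).le

theorem gen {X : Set ℤ} (hX : Key X) : mu X = ⨆ m : ℕ+, (dX X m : ℝ) / m := by
  classical
  have cb : ∀ A : Set ℕ, IsCoboundedUnder (· ≤ ·) atTop
      fun N : ℕ => ((A ∩ Set.Icc 1 N).ncard : ℝ) / N := fun A =>
    isCoboundedUnder_le_of_le _ fun N => (r01 A N).1
  have ba : BddAbove (Set.range fun m : ℕ+ => (dX X m : ℝ) / m) := ⟨1, by
    rintro _ ⟨m, rfl⟩
    exact div_le_one_of_le₀ (by exact_mod_cast csSup_le' (bd X m)) (by positivity)⟩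
  refine le_antisymm (Real.sSup_le ?_ (Real.iSup_nonneg fun m => by positivity))
    (ciSup_le fun m => ?_)
  · rintro _ ⟨A, -, hA, rfl⟩
    refine le_of_forall_pos_le_add fun ε e0 => ?_
    obtain ⟨L, L0, B, h1, h2⟩ := lg (X := X) (F := fun n => if n ∈ A then 1 else 0)
      (fun n => by split_ifs <;> simp) (fun a b ha hb => hA a (by simpa using ha) b (by simpa using hb))
      hX (δ := ud A - ε / 6) (ε := ε / 6) (by positivity) ((frequently_lt_of_lt_limsup (cb A)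
        (show ud A - ε / 6 < ud A by linarith)).and_eventually (eventually_gt_atTop 0) |>.mono
        fun N ⟨h, N0⟩ => by
          rw [lt_div_iff₀ (by exact_mod_cast N0), nc] at h
          rw [Finset.sum_boole]
          exact h.le.trans (Nat.cast_le.2 (Finset.card_le_card fun n hn => by
            simp at hn ⊢; exact ⟨hn.1.2, hn.2⟩)))
    have : NeZero L := ⟨L0.ne'⟩
    have a : (B.card : ℝ) ≤ dX X L := by
      exact_mod_cast le_csSup ⟨L, bd X L⟩ ⟨B, fun a ha b hb ⟨x, x1, x2, x3⟩ =>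
        h1 a ha b hb x x1 x2 x3, rfl⟩
    have b := le_ciSup ba ⟨L, L0⟩
    have c := (le_div_iff₀ (by exact_mod_cast L0)).2 (h2.trans a)
    simp only [PNat.mk_coe] at b
    linarith
  · obtain ⟨B, h1, h2⟩ := Nat.sSup_mem (s := {k | ∃ B : Finset (ZMod m),
      (∀ a ∈ B, ∀ b ∈ B, a - b ∉ Xm X m) ∧ B.card = k}) ⟨0, ∅, by simp, rfl⟩ ⟨m, bd X m⟩
    refine le_trans ?_ (le_csSup ⟨1, ?_⟩ ⟨{n | n ≠ 0 ∧ (n : ZMod m) ∈ B}, by simp,
      fun a ha b hb h => by_contra fun c => h1 _ ha.2 _ hb.2 ⟨_, h, c, by push_cast; rfl⟩, rfl⟩)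
    · refine le_limsup_of_frequently_le (frequently_atTop.2 fun k => ⟨m * (k + 1),
        (Nat.le_succ k).trans (Nat.le_mul_of_pos_left _ m.pos), ?_⟩)
        (isBoundedUnder_of ⟨1, fun N => (r01 _ N).2⟩)
      have := Finset.card_le_card_of_injOn (s := B ×ˢ Finset.range (k + 1))
        (t := (Finset.Icc 1 (m * (k + 1))).filter (· ∈ {n : ℕ | n ≠ 0 ∧ (n : ZMod m) ∈ B}))
        (fun p => m * p.2 + (p.1 - 1).val + 1) (fun p hp => by
          obtain ⟨a, b⟩ := Finset.mem_product.1 hp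
          have := ZMod.val_lt (p.1 - 1)
          have := Nat.mul_le_mul_left m (Nat.lt_succ_iff.1 (Finset.mem_range.1 b))
          beta_reduce
          refine Finset.mem_filter.2 ⟨Finset.mem_Icc.2 ⟨by omega, by rw [mul_add]; omega⟩,
            by omega, by simpa using a⟩) fun p _ q _ h => by
          have a : p.1 = q.1 := by simpa using congrArg (Nat.cast : ℕ → ZMod m) h
          simp only [a] at h
          exact Prod.ext a (Nat.eq_of_mul_eq_mul_left m.pos (by omega))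
      rw [Finset.card_product, Finset.card_range, h2, ← nc] at this
      rw [div_le_div_iff₀ (by positivity) (by positivity), Nat.cast_mul, mul_left_comm, mul_comm]
      exact mul_le_mul_of_nonneg_right (by exact_mod_cast this) (by positivity)
    · rintro _ ⟨A, -, -, rfl⟩
      exact limsup_le_of_le (cb A) (Eventually.of_forall fun N => (r01 A N).2)

lemma dg (p : ℤ[X]) (D : ℕ) (h : p.natDegree ≤ D) :
    Dg D ((D.factorial * p.coeff D : ℤ) : ℝ) fun n => ((p.eval (n : ℤ) : ℤ) : ℝ) := by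
  have := Dg.poly D (p.map (Int.castRingHom ℝ)) (natDegree_map_le.trans h)
  simp only [← Int.cast_natCast (R := ℝ), eval_intCast_map, coeff_map, eq_intCast] at this
  rwa [Int.cast_mul]

theorem result (h : ℤ[X]) (h0 : h ≠ 0) :
    mu (Set.range fun n : ℤ => h.eval n) =
      (⨆ m : ℕ+, (dX (Set.range fun n : ℤ => h.eval n) m : ℝ) / m) ∧
    mu ((fun p : ℕ => h.eval (p : ℤ)) '' {p | p.Prime}) =
      ⨆ m : ℕ+, (dX ((fun p : ℕ => h.eval (p : ℤ)) '' {p | p.Prime}) m : ℝ) / m := by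
  rcases hd : h.natDegree with _ | d
  · rw [eq_C_of_natDegree_eq_zero hd]
    constructor <;> refine gen fun m m0 => ⟨{h.coeff 0}, fun η _ => ⟨m, m0, dvd_rfl,
      fun κ _ x hx c => absurd ?_ c⟩⟩
    · obtain ⟨n, rfl⟩ := hx; simp
    · obtain ⟨n, -, rfl⟩ := hx; simp
  have P : Pl d _ _ fun n => h.eval (n : ℤ) := ⟨dg h _ hd.le, by
    simpa only [eval_X, Int.cast_natCast] using dg X (d + 1) (by simp),
    mul_ne_zero (by positivity) (hd ▸ leadingCoeff_ne_zero.2 h0), fun a b => sub_dvd_eval_sub _ _ _⟩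
  have hZ : ∀ n : ℕ, h.eval (n : ℤ) = 0 → n ∈ h.roots.toFinset.image Int.toNat := fun n hn =>
    Finset.mem_image.2 ⟨n, Multiset.mem_toFinset.2 ((mem_roots h0).2 hn), rfl⟩
  constructor <;> refine gen fun m m0 => ?_
  · refine ⟨∅, fun η η0 => ?_⟩
    obtain ⟨m', a, b, c⟩ := keyZ P _ hZ (X := Set.range fun n : ℤ => h.eval n) m0 η0 fun n => ⟨n, rfl⟩
    refine ⟨m', a, b, ?_⟩
    rintro κ k0 _ ⟨n, rfl⟩ -
    refine c κ k0 (n % m).toNat _ (dvd_trans ?_ (sub_dvd_eval_sub _ _ _))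
    rw [Int.toNat_of_nonneg (Int.emod_nonneg _ (by positivity)), dvd_sub_comm]
    exact Int.dvd_self_sub_emod
  · refine ⟨m.primeFactors.image fun p : ℕ => h.eval (p : ℤ), fun η η0 => ?_⟩
    obtain ⟨m', a, b, c⟩ := keyP P _ hZ (X := (fun p : ℕ => h.eval (p : ℤ)) '' {p | p.Prime}) m0 η0
      fun p hp => ⟨p, hp, rfl⟩
    refine ⟨m', a, b, ?_⟩
    rintro κ k0 _ ⟨p, hp, rfl⟩ e
    exact c κ k0 p ((Nat.Prime.coprime_iff_not_dvd hp).2 fun z =>
      e (Finset.mem_image_of_mem _ (Nat.mem_primeFactors.2 ⟨hp, z, m0.ne'⟩)))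

end Pool.Agent.Results.MP_e70ed2_nt.Local
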